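import Mathlib
import Pool.Agent.H162R2.Sparse.Kernel

/-!
# Galvin's method with inner edges first (MP_2f9829_co, project LE of helper671)
-/

set_option autoImplicit false

namespace Pool.Agent.R671.LE

open Classical in
/-- the number of neighbours of `x` on its own side of the partition `A`, `V \ A` -/
noncomputable def inDeg {V : Type} (G : SimpleGraph V) (A : Set V) (x : V) : ℕ :=
  {y : V | G.Adj x y ∧ (x ∈ A ↔ y ∈ A)}.ncard

namespace Ch

section colour

variable {α : Type*} [DecidableEq α]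

open Classical in
/-- list colouring from kernels -/
theorem list_colour (Cf Dom : α → α → Prop) (E : Finset α)
    (hker : ∀ S : Finset α, S ⊆ E → ∃ M ⊆ S, (∀ e ∈ M, ∀ f ∈ M, ¬ Cf e f) ∧
      ∀ e ∈ S, e ∉ M → ∃ f ∈ M, Dom f e) :
    ∀ (n : ℕ) (S : Finset α) (L : α → Finset ℕ), S ⊆ E → S.card = n →
      (∀ e ∈ S, (S.filter (fun f => Dom f e)).card < (L e).card) →
      ∃ col : α → ℕ, (∀ e ∈ S, col e ∈ L e) ∧
        ∀ e ∈ S, ∀ f ∈ S, Cf e f → col e ≠ col f := by
  intro n
  induction n using Nat.strong_induction_on with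
  | _ n ih =>
    intro S L hSE hS hL
    rcases S.eq_empty_or_nonempty with h0 | ⟨e0, he0⟩
    · subst h0
      exact ⟨fun _ => 0, by simp, by simp⟩
    · have hne : (L e0).Nonempty := by
        rw [← Finset.card_pos]
        exact lt_of_le_of_lt (Nat.zero_le _) (hL e0 he0)
      obtain ⟨x, hx⟩ := hne
      obtain ⟨M, hM, hmat, hdom⟩ := hker (S.filter (fun e => x ∈ L e))
        ((Finset.filter_subset _ _).trans hSE)
      have hMS : M ⊆ S := hM.trans (Finset.filter_subset _ _)
      have hMne : M.Nonempty := by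
        by_cases h : e0 ∈ M
        · exact ⟨e0, h⟩
        · obtain ⟨f, hf, _⟩ := hdom e0 (Finset.mem_filter.2 ⟨he0, hx⟩) h
          exact ⟨f, hf⟩
      have hcard : (S \ M).card < n := by
        rw [Finset.card_sdiff_of_subset hMS, hS]
        have h1 := Finset.card_pos.2 hMne
        have h2 := Finset.card_le_card hMS
        omega
      obtain ⟨col, hc1, hc2⟩ := ih _ hcard (S \ M) (fun e => (L e).erase x)
        (Finset.sdiff_subset.trans hSE) rfl (by
        intro e he
        rw [Finset.mem_sdiff] at he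
        have h1 := hL e he.1
        have hsub : (S \ M).filter (fun f => Dom f e) ⊆ S.filter (fun f => Dom f e) :=
          Finset.filter_subset_filter _ Finset.sdiff_subset
        by_cases hxe : x ∈ L e
        · obtain ⟨f, hf, hfd⟩ := hdom e (Finset.mem_filter.2 ⟨he.1, hxe⟩) he.2
          have h2 : ((S \ M).filter (fun f => Dom f e)).card <
              (S.filter (fun f => Dom f e)).card := by
            apply Finset.card_lt_card
            rw [Finset.ssubset_iff_of_subset hsub]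
            refine ⟨f, Finset.mem_filter.2 ⟨hMS hf, hfd⟩, ?_⟩
            intro h
            exact (Finset.mem_sdiff.1 (Finset.mem_filter.1 h).1).2 hf
          rw [Finset.card_erase_of_mem hxe]
          omega
        · rw [Finset.erase_eq_of_notMem hxe]
          exact lt_of_le_of_lt (Finset.card_le_card hsub) h1)
      refine ⟨fun e => if e ∈ M then x else col e, ?_, ?_⟩
      · intro e he
        by_cases h : e ∈ M
        · simp only [if_pos h]
          exact (Finset.mem_filter.1 (hM h)).2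
        · simp only [if_neg h]
          exact Finset.mem_of_mem_erase (hc1 e (Finset.mem_sdiff.2 ⟨he, h⟩))
      · intro e he f hf hadj
        by_cases h : e ∈ M <;> by_cases h' : f ∈ M
        · exact absurd hadj (hmat e h f h')
        · simp only [if_pos h, if_neg h']
          exact (Finset.ne_of_mem_erase (hc1 f (Finset.mem_sdiff.2 ⟨hf, h'⟩))).symm
        · simp only [if_neg h, if_pos h']
          exact Finset.ne_of_mem_erase (hc1 e (Finset.mem_sdiff.2 ⟨he, h⟩))
        · simp only [if_neg h, if_neg h']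
          exact hc2 e (Finset.mem_sdiff.2 ⟨he, h⟩) f (Finset.mem_sdiff.2 ⟨hf, h'⟩) hadj

end colour

variable {V : Type}

/-- an inner edge -/
def Inner (A : Set V) (e : Sym2 V) : Prop := ∀ x ∈ e, ∀ y ∈ e, x ∈ A → y ∈ A

/-- sharing an end -/
def Share (d e : Sym2 V) : Prop := ∃ v, v ∈ d ∧ v ∈ e

/-- domination -/
def Dm (A : Set V) (f : V → V → ℕ) (d e : Sym2 V) : Prop :=
  (Inner A d ∧ d ≠ e ∧ Share d e) ∨
  (∃ x ∈ A, ∃ y, y ∉ A ∧ ∃ y', y' ∉ A ∧ d = s(x, y) ∧ e = s(x, y') ∧ f x y < f x y') ∨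
  (∃ x ∈ A, ∃ x' ∈ A, ∃ y, y ∉ A ∧ d = s(x, y) ∧ e = s(x', y) ∧ f x' y < f x y)

theorem inner_mk {A : Set V} {x y : V} : Inner A s(x, y) ↔ (x ∈ A ↔ y ∈ A) := by
  constructor
  · intro h
    exact ⟨h x (Sym2.mem_mk_left _ _) y (Sym2.mem_mk_right _ _),
      h y (Sym2.mem_mk_right _ _) x (Sym2.mem_mk_left _ _)⟩
  · intro h a ha b hb haA
    rw [Sym2.mem_iff] at ha hb
    rcases ha with rfl | rfl <;> rcases hb with rfl | rfl <;> tauto

/-- a cross edge -/
theorem cross {A : Set V} {e : Sym2 V} (h : ¬ Inner A e) : ∃ x ∈ A, ∃ y, y ∉ A ∧ e = s(x, y) := by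
  induction e using Sym2.ind with
  | _ a b =>
    rw [inner_mk] at h
    by_cases ha : a ∈ A
    · have hb : b ∉ A := fun hb => h ⟨fun _ => hb, fun _ => ha⟩
      exact ⟨a, ha, b, hb, rfl⟩
    · have hb : b ∈ A := by
        by_contra hb
        exact h ⟨fun h => absurd h ha, fun h => absurd h hb⟩
      exact ⟨b, hb, a, ha, Sym2.eq_swap⟩

theorem cross_eq {A : Set V} {x y x' y' : V} (hx : x ∈ A) (hy : y ∉ A) (hx' : x' ∈ A)
    (hy' : y' ∉ A) (h : s(x, y) = s(x', y')) : x = x' ∧ y = y' := by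
  rw [Sym2.eq_iff] at h
  rcases h with h | ⟨rfl, rfl⟩
  · exact h
  · exact absurd hx hy'

theorem not_inner {A : Set V} {x y : V} (hx : x ∈ A) (hy : y ∉ A) : ¬ Inner A s(x, y) := by
  rw [inner_mk]
  exact fun h => hy (h.1 hx)

section ker

variable [Fintype V] [DecidableEq V]

open Classical in
/-- kernels -/
theorem kernel (A : Set V) (f : V → V → ℕ) (r : ℕ) (E : Finset (Sym2 V))
    (hf1 : ∀ x ∈ A, ∀ y, y ∉ A → ∀ y', y' ∉ A → s(x, y) ∈ E → s(x, y') ∈ E →
      f x y = f x y' → y = y')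
    (hf2 : ∀ y, y ∉ A → ∀ x ∈ A, ∀ x' ∈ A, s(x, y) ∈ E → s(x', y) ∈ E →
      f x y = f x' y → x = x')
    (hf3 : ∀ x ∈ A, ∀ y, y ∉ A → s(x, y) ∈ E → f x y ≤ r)
    (S : Finset (Sym2 V)) (hS : S ⊆ E) :
    ∃ M ⊆ S, (∀ e ∈ M, ∀ d ∈ M, ¬ (e ≠ d ∧ Share e d)) ∧
      ∀ e ∈ S, e ∉ M → ∃ d ∈ M, Dm A f d e := by
  -- a maximal matching of the inner edges
  obtain ⟨M1, hM1, hmax⟩ := Finset.exists_max_image
    ((S.filter (Inner A)).powerset.filter
      (fun M => ∀ e ∈ M, ∀ d ∈ M, ¬ (e ≠ d ∧ Share e d))) Finset.card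
    ⟨∅, by simp⟩
  rw [Finset.mem_filter, Finset.mem_powerset] at hM1
  obtain ⟨hM1s, hM1m⟩ := hM1
  have hM1S : M1 ⊆ S := hM1s.trans (Finset.filter_subset _ _)
  have hM1i : ∀ d ∈ M1, Inner A d := fun d hd => (Finset.mem_filter.1 (hM1s hd)).2
  have hshare : ∀ {a b : Sym2 V}, Share a b → Share b a := fun ⟨v, h1, h2⟩ => ⟨v, h2, h1⟩
  have hmaxi : ∀ e ∈ S, Inner A e → e ∉ M1 → ∃ d ∈ M1, Share d e := by
    intro e he hei heM
    by_contra hcon
    push Not at hcon
    have h1 := hmax (insert e M1) (by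
      rw [Finset.mem_filter, Finset.mem_powerset]
      refine ⟨?_, ?_⟩
      · intro a ha
        rw [Finset.mem_insert] at ha
        rcases ha with rfl | ha
        · exact Finset.mem_filter.2 ⟨he, hei⟩
        · exact hM1s ha
      · intro a ha b hb hab
        rw [Finset.mem_insert] at ha hb
        rcases ha with rfl | ha <;> rcases hb with rfl | hb
        · exact hab.1 rfl
        · exact hcon b hb (hshare hab.2)
        · exact hcon a ha hab.2
        · exact hM1m a ha b hb hab)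
    rw [Finset.card_insert_of_notMem heM] at h1
    omega
  -- the cross edges
  let P : Finset (V × V) := Finset.univ.filter (fun p => p.1 ∈ A ∧ p.2 ∉ A ∧ s(p.1, p.2) ∈ S ∧
    ∀ d ∈ M1, p.1 ∉ d ∧ p.2 ∉ d)
  have hP : ∀ p, p ∈ P ↔ (p.1 ∈ A ∧ p.2 ∉ A ∧ s(p.1, p.2) ∈ S ∧
    ∀ d ∈ M1, p.1 ∉ d ∧ p.2 ∉ d) := fun p => by simp [P]
  obtain ⟨idx⟩ : Nonempty (V × V ≃ Fin (Fintype.card (V × V))) := ⟨Fintype.equivFin _⟩
  obtain ⟨K, hK⟩ : ∃ K, K = Fintype.card (V × V) := ⟨_, rfl⟩
  have hidx : ∀ p, (idx p : ℕ) < K := fun p => by rw [hK]; exact (idx p).2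
  have hinj : ∀ g : V × V → ℕ, Function.Injective (fun p => g p * K + (idx p : ℕ)) := by
    intro g p q hpq
    simp only at hpq
    have h1 : (g p * K + (idx p : ℕ)) % K = (idx p : ℕ) := by
      rw [Nat.mul_add_mod_self_right, Nat.mod_eq_of_lt (hidx p)]
    have h2 : (g q * K + (idx q : ℕ)) % K = (idx q : ℕ) := by
      rw [Nat.mul_add_mod_self_right, Nat.mod_eq_of_lt (hidx q)]
    rw [hpq, h2] at h1
    exact (idx.injective (Fin.ext h1)).symm
  have hle : ∀ (g : V × V → ℕ) (p q : V × V), g p * K + (idx p : ℕ) < g q * K + (idx q : ℕ) →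
      g p ≤ g q := by
    intro g p q h
    by_contra hcon
    push Not at hcon
    have h1 : (g q + 1) * K ≤ g p * K := Nat.mul_le_mul_right K hcon
    have h2 := hidx q
    have h3 : (g q + 1) * K = g q * K + K := by ring
    omega
  obtain ⟨M2, hM2, hmat2, hdom2⟩ := Pool.Agent.H162R2.Sparse.kernel
    (fun p => f p.1 p.2 * K + (idx p : ℕ)) (fun p => (r - f p.1 p.2) * K + (idx p : ℕ))
    (hinj fun p => f p.1 p.2) (hinj fun p => r - f p.1 p.2) P.card P rfl
  refine ⟨M1 ∪ M2.image (fun p => s(p.1, p.2)), ?_, ?_, ?_⟩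
  · intro e he
    rw [Finset.mem_union, Finset.mem_image] at he
    rcases he with he | ⟨p, hp, rfl⟩
    · exact hM1S he
    · exact ((hP p).1 (hM2 hp)).2.2.1
  · have hcr : ∀ e ∈ M1, ∀ p ∈ M2, ¬ Share e s(p.1, p.2) := by
      rintro e he p hp ⟨v, hv1, hv2⟩
      have h1 := ((hP p).1 (hM2 hp)).2.2.2 e he
      rw [Sym2.mem_iff] at hv2
      rcases hv2 with rfl | rfl
      · exact h1.1 hv1
      · exact h1.2 hv1
    intro e he d hd
    rw [Finset.mem_union, Finset.mem_image] at he hd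
    rcases he with he | ⟨p, hp, rfl⟩ <;> rcases hd with hd | ⟨q, hq, rfl⟩
    · exact hM1m e he d hd
    · exact fun h => hcr e he q hq h.2
    · exact fun h => hcr d hd p hp (hshare h.2)
    · rintro ⟨hne, v, hv1, hv2⟩
      apply hne
      have hp' := (hP p).1 (hM2 hp)
      have hq' := (hP q).1 (hM2 hq)
      rw [Sym2.mem_iff] at hv1 hv2
      have : p = q := by
        apply hmat2 p hp q hq
        rcases hv1 with rfl | rfl <;> rcases hv2 with h | h
        · exact Or.inl h
        · exact absurd hp'.1 (h ▸ hq'.2.1)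
        · exact absurd (h ▸ hq'.1) hp'.2.1
        · exact Or.inr h
      rw [this]
  · intro e he heM
    rw [Finset.mem_union, not_or] at heM
    by_cases hei : Inner A e
    · obtain ⟨d, hd, hde⟩ := hmaxi e he hei heM.1
      refine ⟨d, Finset.mem_union_left _ hd, Or.inl ⟨hM1i d hd, ?_, hde⟩⟩
      rintro rfl
      exact heM.1 hd
    · obtain ⟨x, hx, y, hy, rfl⟩ := cross hei
      by_cases ht : ∀ d ∈ M1, x ∉ d ∧ y ∉ d
      · have hpP : (x, y) ∈ P := (hP _).2 ⟨hx, hy, he, ht⟩
        have hpM : (x, y) ∉ M2 := fun h => heM.2 (Finset.mem_image.2 ⟨(x, y), h, rfl⟩)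
        obtain ⟨q, hq, hqd⟩ := hdom2 (x, y) hpP hpM
        have hq' := (hP q).1 (hM2 hq)
        refine ⟨s(q.1, q.2), Finset.mem_union_right _ (Finset.mem_image.2 ⟨q, hq, rfl⟩), ?_⟩
        rcases hqd with ⟨h1, h2⟩ | ⟨h1, h2⟩
        · right; left
          simp only at h1
          have h3 : f q.1 q.2 ≤ f x y := hle (fun p => f p.1 p.2) q (x, y) h2
          refine ⟨x, hx, q.2, hq'.2.1, y, hy, by rw [h1], rfl, ?_⟩
          rw [← h1] at h3 ⊢
          refine lt_of_le_of_ne h3 ?_
          intro h4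
          have h5 : q.2 = y := by
            refine hf1 q.1 (h1 ▸ hx) q.2 hq'.2.1 y hy (hS hq'.2.2.1) ?_ h4
            rw [h1]
            exact hS he
          have h6 : q = (x, y) := Prod.ext h1 h5
          rw [h6] at hq
          exact hpM hq
        · right; right
          simp only at h1
          have h3 : r - f q.1 q.2 ≤ r - f x y := hle (fun p => r - f p.1 p.2) q (x, y) h2
          have h7 := hf3 x hx y hy (hS he)
          refine ⟨q.1, hq'.1, x, hx, y, hy, by rw [h1], rfl, ?_⟩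
          rw [← h1] at h3 h7 ⊢
          have h3' : f x q.2 ≤ f q.1 q.2 := by
            by_contra hcon
            push Not at hcon
            omega
          refine lt_of_le_of_ne h3' ?_
          intro h4
          have h5 : x = q.1 := by
            refine hf2 q.2 hq'.2.1 x hx q.1 hq'.1 ?_ (hS hq'.2.2.1) h4
            rw [h1]
            exact hS he
          have h6 : q = (x, y) := Prod.ext h5.symm h1
          rw [h6] at hq
          exact hpM hq
      · push Not at ht
        obtain ⟨d, hd, hd2⟩ := ht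
        refine ⟨d, Finset.mem_union_left _ hd, Or.inl ⟨hM1i d hd, ?_, ?_⟩⟩
        · rintro rfl
          exact heM.1 hd
        · by_cases hxd : x ∈ d
          · exact ⟨x, hxd, Sym2.mem_mk_left _ _⟩
          · exact ⟨y, hd2 hxd, Sym2.mem_mk_right _ _⟩

open Classical in
/-- the inner edges at a vertex -/
theorem card_inner (G : SimpleGraph V) (A : Set V) (x : V) (E : Finset (Sym2 V))
    (hE : ∀ e ∈ E, e ∈ G.edgeSet) :
    (E.filter (fun d => Inner A d ∧ x ∈ d)).card ≤ inDeg G A x := by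
  have h1 : inDeg G A x =
      (Finset.univ.filter (fun y => G.Adj x y ∧ (x ∈ A ↔ y ∈ A))).card := by
    rw [inDeg, ← Set.ncard_coe_finset]
    congr 1
    ext y
    simp
  rw [h1]
  refine le_trans (Finset.card_le_card ?_) (Finset.card_image_le (f := fun y => s(x, y)))
  intro d hd
  rw [Finset.mem_filter] at hd
  obtain ⟨hd1, hd2, hd3⟩ := hd
  obtain ⟨y, rfl⟩ := hd3
  rw [Finset.mem_image]
  refine ⟨y, ?_, rfl⟩
  rw [Finset.mem_filter]
  refine ⟨Finset.mem_univ _, ?_, inner_mk.1 hd2⟩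
  exact hE _ hd1

open Classical in
/-- out-degrees -/
theorem outdeg (G : SimpleGraph V) (A : Set V) (r : ℕ) (f : V → V → ℕ)
    (hin : ∀ x y, G.Adj x y → (x ∈ A ↔ y ∈ A) → inDeg G A x + inDeg G A y ≤ r + 1)
    (hf1 : ∀ x ∈ A, ∀ y, y ∉ A → ∀ y', y' ∉ A → G.Adj x y → G.Adj x y' →
      f x y = f x y' → y = y')
    (hf2 : ∀ y, y ∉ A → ∀ x ∈ A, ∀ x' ∈ A, G.Adj x y → G.Adj x' y →
      f x y = f x' y → x = x')
    (hf3 : ∀ x ∈ A, ∀ y, y ∉ A → G.Adj x y → inDeg G A x < f x y ∧ f x y + inDeg G A y ≤ r)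
    (E : Finset (Sym2 V)) (hE : ∀ e ∈ E, e ∈ G.edgeSet) (e : Sym2 V) (he : e ∈ E) :
    (E.filter (fun d => Dm A f d e)).card < r := by
  have hci := fun x => card_inner G A x E hE
  by_cases hei : Inner A e
  · induction e using Sym2.ind with
    | _ x x' =>
      have hadj : G.Adj x x' := hE _ he
      have h1 := hin x x' hadj (inner_mk.1 hei)
      have hx : s(x, x') ∈ E.filter (fun d => Inner A d ∧ x ∈ d) :=
        Finset.mem_filter.2 ⟨he, hei, Sym2.mem_mk_left _ _⟩
      have hx' : s(x, x') ∈ E.filter (fun d => Inner A d ∧ x' ∈ d) :=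
        Finset.mem_filter.2 ⟨he, hei, Sym2.mem_mk_right _ _⟩
      have hsub : E.filter (fun d => Dm A f d s(x, x')) ⊆
          (E.filter (fun d => Inner A d ∧ x ∈ d)).erase s(x, x') ∪
          (E.filter (fun d => Inner A d ∧ x' ∈ d)).erase s(x, x') := by
        intro d hd
        rw [Finset.mem_filter] at hd
        obtain ⟨hd1, hd2⟩ := hd
        rcases hd2 with ⟨h2, h3, v, hv1, hv2⟩ | ⟨a, ha, b, hb, b', hb', h2, h3, _⟩ |
          ⟨a, ha, a', ha', b, hb, h2, h3, _⟩
        · rw [Sym2.mem_iff] at hv2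
          rw [Finset.mem_union]
          rcases hv2 with rfl | rfl
          · exact Or.inl (Finset.mem_erase.2 ⟨h3, Finset.mem_filter.2 ⟨hd1, h2, hv1⟩⟩)
          · exact Or.inr (Finset.mem_erase.2 ⟨h3, Finset.mem_filter.2 ⟨hd1, h2, hv1⟩⟩)
        · rw [h3] at hei
          exact absurd hei (not_inner ha hb')
        · rw [h3] at hei
          exact absurd hei (not_inner ha' hb)
      have h2 := (Finset.card_le_card hsub).trans (Finset.card_union_le _ _)
      rw [Finset.card_erase_of_mem hx, Finset.card_erase_of_mem hx'] at h2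
      have h3 := Finset.card_pos.2 ⟨_, hx⟩
      have h4 := Finset.card_pos.2 ⟨_, hx'⟩
      have h5 := hci x
      have h6 := hci x'
      omega
  · obtain ⟨x, hx, y, hy, rfl⟩ := cross hei
    have hadj : G.Adj x y := hE _ he
    obtain ⟨h31, h32⟩ := hf3 x hx y hy hadj
    have hC1 : ((Finset.univ.filter (fun z => z ∉ A ∧ G.Adj x z ∧ f x z < f x y)).image
        (fun z => s(x, z))).card ≤ f x y - 1 - inDeg G A x := by
      refine Finset.card_image_le.trans ?_
      have h1 : (Finset.univ.filter (fun z => z ∉ A ∧ G.Adj x z ∧ f x z < f x y)).card ≤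
          (Finset.Ioo (inDeg G A x) (f x y)).card := by
        apply Finset.card_le_card_of_injOn (fun z => f x z)
        · intro z hz
          rw [Finset.mem_coe, Finset.mem_filter] at hz
          rw [Finset.mem_coe, Finset.mem_Ioo]
          exact ⟨(hf3 x hx z hz.2.1 hz.2.2.1).1, hz.2.2.2⟩
        · intro z hz z' hz' h
          rw [Finset.mem_coe, Finset.mem_filter] at hz hz'
          exact hf1 x hx z hz.2.1 z' hz'.2.1 hz.2.2.1 hz'.2.2.1 h
      rw [Nat.card_Ioo] at h1
      omega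
    have hC2 : ((Finset.univ.filter (fun z => z ∈ A ∧ G.Adj z y ∧ f x y < f z y)).image
        (fun z => s(z, y))).card ≤ r - inDeg G A y - f x y := by
      refine Finset.card_image_le.trans ?_
      have h1 : (Finset.univ.filter (fun z => z ∈ A ∧ G.Adj z y ∧ f x y < f z y)).card ≤
          (Finset.Ioc (f x y) (r - inDeg G A y)).card := by
        apply Finset.card_le_card_of_injOn (fun z => f z y)
        · intro z hz
          rw [Finset.mem_coe, Finset.mem_filter] at hz
          rw [Finset.mem_coe, Finset.mem_Ioc]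
          have := (hf3 z hz.2.1 y hy hz.2.2.1).2
          refine ⟨hz.2.2.2, ?_⟩
          show f z y ≤ r - inDeg G A y
          omega
        · intro z hz z' hz' h
          rw [Finset.mem_coe, Finset.mem_filter] at hz hz'
          exact hf2 y hy z hz.2.1 z' hz'.2.1 hz.2.2.1 hz'.2.2.1 h
      rwa [Nat.card_Ioc] at h1
    have hsub : E.filter (fun d => Dm A f d s(x, y)) ⊆
        (E.filter (fun d => Inner A d ∧ x ∈ d) ∪ E.filter (fun d => Inner A d ∧ y ∈ d)) ∪
        ((Finset.univ.filter (fun z => z ∉ A ∧ G.Adj x z ∧ f x z < f x y)).image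
          (fun z => s(x, z)) ∪
        (Finset.univ.filter (fun z => z ∈ A ∧ G.Adj z y ∧ f x y < f z y)).image
          (fun z => s(z, y))) := by
      intro d hd
      rw [Finset.mem_filter] at hd
      obtain ⟨hd1, hd2⟩ := hd
      rw [Finset.mem_union, Finset.mem_union, Finset.mem_union]
      rcases hd2 with ⟨h2, h3, v, hv1, hv2⟩ | ⟨a, ha, b, hb, b', hb', h2, h3, h4⟩ |
        ⟨a, ha, a', ha', b, hb, h2, h3, h4⟩
      · rw [Sym2.mem_iff] at hv2
        rcases hv2 with rfl | rfl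
        · exact Or.inl (Or.inl (Finset.mem_filter.2 ⟨hd1, h2, hv1⟩))
        · exact Or.inl (Or.inr (Finset.mem_filter.2 ⟨hd1, h2, hv1⟩))
      · obtain ⟨rfl, rfl⟩ := cross_eq hx hy ha hb' h3
        refine Or.inr (Or.inl (Finset.mem_image.2 ⟨b, ?_, h2.symm⟩))
        rw [Finset.mem_filter]
        refine ⟨Finset.mem_univ _, hb, ?_, h4⟩
        rw [h2] at hd1
        exact hE _ hd1
      · obtain ⟨rfl, rfl⟩ := cross_eq hx hy ha' hb h3
        refine Or.inr (Or.inr (Finset.mem_image.2 ⟨a, ?_, h2.symm⟩))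
        rw [Finset.mem_filter]
        refine ⟨Finset.mem_univ _, ha, ?_, h4⟩
        rw [h2] at hd1
        exact hE _ hd1
    have h1 := (Finset.card_le_card hsub).trans (Finset.card_union_le _ _)
    have h2 := Finset.card_union_le (E.filter (fun d => Inner A d ∧ x ∈ d))
      (E.filter (fun d => Inner A d ∧ y ∈ d))
    have h3 := Finset.card_union_le
      ((Finset.univ.filter (fun z => z ∉ A ∧ G.Adj x z ∧ f x z < f x y)).image
        (fun z => s(x, z)))
      ((Finset.univ.filter (fun z => z ∈ A ∧ G.Adj z y ∧ f x y < f z y)).image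
        (fun z => s(z, y)))
    have h5 := hci x
    have h6 := hci y
    omega

end ker

end Ch

theorem choosable (V : Type) [Fintype V] (G : SimpleGraph V) (A : Set V) (r : ℕ)
    (hin : ∀ x y, G.Adj x y → (x ∈ A ↔ y ∈ A) → inDeg G A x + inDeg G A y ≤ r + 1)
    (f : V → V → ℕ)
    (hf1 : ∀ x ∈ A, ∀ y ∉ A, ∀ y' ∉ A, G.Adj x y → G.Adj x y' → f x y = f x y' → y = y')
    (hf2 : ∀ y ∉ A, ∀ x ∈ A, ∀ x' ∈ A, G.Adj x y → G.Adj x' y → f x y = f x' y → x = x')
    (hf3 : ∀ x ∈ A, ∀ y ∉ A, G.Adj x y → inDeg G A x < f x y ∧ f x y + inDeg G A y ≤ r)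
    (L : G.edgeSet → Finset ℕ) (hL : ∀ e, r ≤ (L e).card) :
    ∃ c : G.edgeSet → ℕ, (∀ e, c e ∈ L e) ∧ ∀ e e', G.lineGraph.Adj e e' → c e ≠ c e' := by
  classical
  obtain ⟨E, hEdef⟩ : ∃ E : Finset (Sym2 V), E = Finset.univ.filter (fun e => e ∈ G.edgeSet) :=
    ⟨_, rfl⟩
  have hE : ∀ e, e ∈ E ↔ e ∈ G.edgeSet := fun e => by rw [hEdef]; simp
  obtain ⟨col, hc1, hc2⟩ := Ch.list_colour (fun a b => a ≠ b ∧ Ch.Share a b) (Ch.Dm A f) E
    (fun S hS => Ch.kernel A f r E
      (fun x hx y hy y' hy' h1 h2 h3 => hf1 x hx y hy y' hy' ((hE _).1 h1) ((hE _).1 h2) h3)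
      (fun y hy x hx x' hx' h1 h2 h3 => hf2 y hy x hx x' hx' ((hE _).1 h1) ((hE _).1 h2) h3)
      (fun x hx y hy h1 => by
        have := (hf3 x hx y hy ((hE _).1 h1)).2
        omega) S hS)
    E.card E (fun e => if h : e ∈ G.edgeSet then L ⟨e, h⟩ else ∅) (Finset.Subset.refl _) rfl
    (fun e he => by
      have h1 := Ch.outdeg G A r f hin hf1 hf2 hf3 E (fun e he => (hE e).1 he) e he
      have h2 := hL ⟨e, (hE e).1 he⟩
      rw [dif_pos ((hE e).1 he)]
      omega)
  refine ⟨fun e => col e, ?_, ?_⟩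
  · intro e
    have h1 := hc1 e ((hE _).2 e.2)
    rw [dif_pos e.2] at h1
    exact h1
  · intro e e' h
    rw [SimpleGraph.lineGraph_adj_iff_exists] at h
    exact hc2 e ((hE _).2 e.2) e' ((hE _).2 e'.2) ⟨fun h' => h.1 (Subtype.ext h'), h.2⟩

end Pool.Agent.R671.LE
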