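import Mathlib

/-! Piece LE-2 (helper865): corollaries of `choosable`.  The statement `choosable` of LE-1 enters as
the hypothesis `Choosable` (`idg` is literally `inDeg`). -/

set_option autoImplicit false

namespace Pool.Agent.R671.LE.Cor

/-- the number of neighbours of `x` on its own side of the partition `A`, `V \ A` -/
noncomputable def idg {V : Type} (G : SimpleGraph V) (A : Set V) (x : V) : ℕ :=
  {y : V | G.Adj x y ∧ (x ∈ A ↔ y ∈ A)}.ncard

/-- the statement of `choosable` -/
def Choosable : Prop :=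
  ∀ (V : Type) [Fintype V] (G : SimpleGraph V) (A : Set V) (r : ℕ),
    (∀ x y, G.Adj x y → (x ∈ A ↔ y ∈ A) → idg G A x + idg G A y ≤ r + 1) →
    ∀ f : V → V → ℕ,
    (∀ x ∈ A, ∀ y ∉ A, ∀ y' ∉ A, G.Adj x y → G.Adj x y' → f x y = f x y' → y = y') →
    (∀ y ∉ A, ∀ x ∈ A, ∀ x' ∈ A, G.Adj x y → G.Adj x' y → f x y = f x' y → x = x') →
    (∀ x ∈ A, ∀ y ∉ A, G.Adj x y → idg G A x < f x y ∧ f x y + idg G A y ≤ r) →
    ∀ L : G.edgeSet → Finset ℕ, (∀ e, r ≤ (L e).card) →
    ∃ c : G.edgeSet → ℕ, (∀ e, c e ∈ L e) ∧ ∀ e e', G.lineGraph.Adj e e' → c e ≠ c e'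

section

variable {V : Type} [Fintype V] {G : SimpleGraph V}

omit [Fintype V] in
/-- two edges with a common end have different colours -/
lemma eq_of_col {r : ℕ} (C : G.lineGraph.Coloring (Fin r)) {x y z : V} (h : G.Adj x y)
    (h' : G.Adj x z) (hc : C ⟨s(x, y), h⟩ = C ⟨s(x, z), h'⟩) : y = z := by
  by_contra hyz
  refine C.valid (v := ⟨s(x, y), h⟩) (w := ⟨s(x, z), h'⟩) ?_ hc
  rw [SimpleGraph.lineGraph_adj_iff_exists]
  refine ⟨?_, x, Sym2.mem_mk_left _ _, Sym2.mem_mk_left _ _⟩
  intro h2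
  have h3 : s(x, y) = s(x, z) := congrArg Subtype.val h2
  exact hyz (Sym2.congr_right.mp h3)

omit [Fintype V] in
lemma swp {x y : V} (h : G.Adj x y) :
    (⟨s(x, y), h⟩ : G.edgeSet) = ⟨s(y, x), h.symm⟩ := Subtype.ext Sym2.eq_swap

/-- main lemma: `S` is an injective recolouring which gives the smallest colour to the edges inside
`A` and the largest to the edges inside the complement -/
lemma recolour (hch : Choosable) (A : Set V) (r : ℕ) (C : G.lineGraph.Coloring (Fin r))
    (S : Fin r → Fin r) (hS : Function.Injective S)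
    (hA : ∀ x y (h : G.Adj x y), x ∈ A → y ∈ A → ((S (C ⟨s(x, y), h⟩) : Fin r) : ℕ) = 0)
    (hB : ∀ x y (h : G.Adj x y), x ∉ A → y ∉ A → ((S (C ⟨s(x, y), h⟩) : Fin r) : ℕ) + 1 = r)
    (L : G.edgeSet → Finset ℕ) (hL : ∀ e, r ≤ (L e).card) :
    ∃ c : G.edgeSet → ℕ, (∀ e, c e ∈ L e) ∧ ∀ e e', G.lineGraph.Adj e e' → c e ≠ c e' := by
  classical
  let f : V → V → ℕ := fun x y =>
    if h : G.Adj x y then ((S (C ⟨s(x, y), h⟩) : Fin r) : ℕ) + 1 else 0
  have hf : ∀ x y (h : G.Adj x y), f x y = ((S (C ⟨s(x, y), h⟩) : Fin r) : ℕ) + 1 := by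
    intro x y h
    show (if h : G.Adj x y then ((S (C ⟨s(x, y), h⟩) : Fin r) : ℕ) + 1 else 0) = _
    rw [dif_pos h]
  have hinj : ∀ a b : Fin r, ((S a : Fin r) : ℕ) = ((S b : Fin r) : ℕ) → a = b :=
    fun a b h => hS (Fin.ext h)
  have hid : ∀ x, idg G A x ≤ 1 := by
    intro x
    unfold idg
    rw [Set.ncard_le_one (Set.toFinite _)]
    intro y hy z hz
    obtain ⟨hy1, hy2⟩ := hy
    obtain ⟨hz1, hz2⟩ := hz
    refine eq_of_col C hy1 hz1 (hinj _ _ ?_)
    by_cases hx : x ∈ A
    · rw [hA x y hy1 hx (hy2.mp hx), hA x z hz1 hx (hz2.mp hx)]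
    · have h1 := hB x y hy1 hx (fun h => hx (hy2.mpr h))
      have h2 := hB x z hz1 hx (fun h => hx (hz2.mpr h))
      omega
  have hpos : ∀ x, idg G A x ≠ 0 → ∃ y, G.Adj x y ∧ (x ∈ A ↔ y ∈ A) := by
    intro x hx
    by_contra h
    apply hx
    unfold idg
    rw [Set.ncard_eq_zero (Set.toFinite _), Set.eq_empty_iff_forall_notMem]
    intro y hy
    exact h ⟨y, hy⟩
  refine hch V G A r ?_ f ?_ ?_ ?_ L hL
  · intro x y hxy _
    have h1 := hid x
    have h2 := hid y
    have h3 := (C ⟨s(x, y), hxy⟩).isLt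
    omega
  · intro x _ y _ y' _ h h' hff
    rw [hf x y h, hf x y' h'] at hff
    exact eq_of_col C h h' (hinj _ _ (by omega))
  · intro y _ x _ x' _ h h' hff
    rw [hf x y h, hf x' y h'] at hff
    refine eq_of_col C h.symm h'.symm ?_
    rw [← swp h, ← swp h']
    exact hinj _ _ (by omega)
  · intro x hx y hy h
    rw [hf x y h]
    have hlt := (S (C ⟨s(x, y), h⟩)).isLt
    have h1 := hid x
    have h2 := hid y
    constructor
    · by_cases h0 : idg G A x = 0
      · omega
      · obtain ⟨z, hz1, hz2⟩ := hpos x h0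
        have hzA := hz2.mp hx
        have h3 := hA x z hz1 hx hzA
        have h4 : ((S (C ⟨s(x, y), h⟩) : Fin r) : ℕ) ≠ 0 := by
          intro h5
          have h6 := eq_of_col C h hz1 (hinj _ _ (by omega))
          rw [h6] at hy
          exact hy hzA
        omega
    · by_cases h0 : idg G A y = 0
      · omega
      · obtain ⟨z, hz1, hz2⟩ := hpos y h0
        have hzA : z ∉ A := fun h => hy (hz2.mpr h)
        have h3 := hB y z hz1 hy hzA
        have h4 : ((S (C ⟨s(x, y), h⟩) : Fin r) : ℕ) + 1 ≠ r := by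
          intro h5
          have h6 : x = z := by
            refine eq_of_col C h.symm hz1 ?_
            rw [← swp h]
            exact hinj _ _ (by omega)
          rw [h6] at hx
          exact hzA hx
        omega

end

/-- LECC for graphs with an optimal edge colouring C (colours `Fin r`) and a vertex set `A` such
that all edges inside `A` have colour `i` and all edges inside the complement have colour `j ≠ i` -/
theorem twoClasses (hch : Choosable) (V : Type) [Fintype V] (G : SimpleGraph V) (A : Set V) (r : ℕ)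
    (C : G.lineGraph.Coloring (Fin r)) (i j : Fin r) (hij : i ≠ j)
    (hA : ∀ e : G.edgeSet, (∀ x ∈ (e : Sym2 V), x ∈ A) → C e = i)
    (hB : ∀ e : G.edgeSet, (∀ x ∈ (e : Sym2 V), x ∉ A) → C e = j)
    (L : G.edgeSet → Finset ℕ) (hL : ∀ e, r ≤ (L e).card) :
    ∃ c : G.edgeSet → ℕ, (∀ e, c e ∈ L e) ∧ ∀ e e', G.lineGraph.Adj e e' → c e ≠ c e' := by
  classical
  have hr : 2 ≤ r := by
    have h1 := i.isLt
    have h2 := j.isLt
    have h3 : (i : ℕ) ≠ j := fun h => hij (Fin.ext h)
    omega
  let z : Fin r := ⟨0, by omega⟩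
  let l : Fin r := ⟨r - 1, by omega⟩
  let S : Equiv.Perm (Fin r) := (Equiv.swap i z).trans (Equiv.swap (Equiv.swap i z j) l)
  have hzl : z ≠ l := by
    intro h
    have : (0:ℕ) = r - 1 := congrArg Fin.val h
    omega
  have hSi : S i = z := by
    show Equiv.swap (Equiv.swap i z j) l (Equiv.swap i z i) = z
    rw [Equiv.swap_apply_left]
    refine Equiv.swap_apply_of_ne_of_ne ?_ hzl
    intro h
    apply hij
    apply (Equiv.swap i z).injective
    rw [Equiv.swap_apply_left]
    exact h
  have hSj : S j = l := by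
    show Equiv.swap (Equiv.swap i z j) l (Equiv.swap i z j) = l
    rw [Equiv.swap_apply_left]
  refine recolour hch A r C S S.injective ?_ ?_ L hL
  · intro x y h hx hy
    rw [hA ⟨s(x, y), h⟩ (fun w hw => by
      rcases Sym2.mem_iff.mp hw with rfl | rfl <;> assumption), hSi]
  · intro x y h hx hy
    rw [hB ⟨s(x, y), h⟩ (fun w hw => by
      rcases Sym2.mem_iff.mp hw with rfl | rfl <;> assumption), hSj]
    show r - 1 + 1 = r
    omega

/-- LECC when deleting one edge leaves a bipartite graph -/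
theorem oneEdge (hch : Choosable) (V : Type) [Fintype V] (G : SimpleGraph V) (e : Sym2 V)
    (hb : (G.deleteEdges {e}).Colorable 2) (k : ℕ) :
    G.lineGraph.Colorable k ↔
      ∀ L : G.edgeSet → Finset ℕ, (∀ e, k ≤ (L e).card) →
        ∃ f : G.edgeSet → ℕ, (∀ e, f e ∈ L e) ∧
          ∀ e e', G.lineGraph.Adj e e' → f e ≠ f e' := by
  classical
  constructor
  · rintro ⟨C⟩ L hL
    obtain ⟨B⟩ := hb
    -- a set `A` with all inner edges equal to `e`, and `e` not inside the complement
    have key : ∃ A : Set V, (∀ x y, G.Adj x y → (x ∈ A ↔ y ∈ A) → s(x, y) = e) ∧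
        ∀ x y, G.Adj x y → x ∉ A → y ∉ A → False := by
      have hinner : ∀ x y, G.Adj x y → B x = B y → s(x, y) = e := by
        intro x y h hB
        by_contra hne
        refine B.valid (v := x) (w := y) ?_ hB
        rw [SimpleGraph.deleteEdges_adj]
        exact ⟨h, hne⟩
      have htwo : ∀ a b : Fin 2, a ≠ 0 → b ≠ 0 → a = b := by decide
      by_cases he : ∃ x y, G.Adj x y ∧ B x ≠ 0 ∧ B y ≠ 0
      · refine ⟨{x | B x ≠ 0}, ?_, ?_⟩
        · intro x y h hxy
          refine hinner x y h ?_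
          by_cases hx : B x = 0
          · have : ¬ B y ≠ 0 := fun h' => (hxy.mpr h') hx
            rw [hx]
            exact (not_not.mp this).symm
          · exact htwo _ _ hx (hxy.mp hx)
        · intro x y h hx hy
          obtain ⟨u, v, huv, hu, hv⟩ := he
          have hx' : B x = 0 := not_not.mp hx
          have hy' : B y = 0 := not_not.mp hy
          have h1 := hinner x y h (by rw [hx', hy'])
          have h2 := hinner u v huv (htwo _ _ hu hv)
          have h3 : s(x, y) = s(u, v) := h1.trans h2.symm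
          rcases Sym2.eq_iff.mp h3 with ⟨h4, _⟩ | ⟨h4, _⟩
          · exact hu (by rw [← h4, hx'])
          · exact hv (by rw [← h4, hx'])
      · refine ⟨{x | B x = 0}, ?_, ?_⟩
        · intro x y h hxy
          refine hinner x y h ?_
          by_cases hx : B x = 0
          · rw [hx]
            exact (hxy.mp hx).symm
          · exact htwo _ _ hx (fun h' => hx (hxy.mpr h'))
        · intro x y h hx hy
          exact he ⟨x, y, h, hx, hy⟩
    obtain ⟨A, hA1, hA2⟩ := key
    by_cases hin : ∃ x y, ∃ _ : G.Adj x y, x ∈ A ∧ y ∈ A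
    · obtain ⟨u, v, huv, hu, hv⟩ := hin
      have he : s(u, v) = e := hA1 u v huv ⟨fun _ => hv, fun _ => hu⟩
      let i : Fin k := C ⟨s(u, v), huv⟩
      have hk : 0 < k := lt_of_le_of_lt (Nat.zero_le _) i.isLt
      let z : Fin k := ⟨0, hk⟩
      refine recolour hch A k C (Equiv.swap i z) (Equiv.injective _) ?_ ?_ L hL
      · intro x y h hx hy
        have h1 : s(x, y) = s(u, v) := (hA1 x y h ⟨fun _ => hy, fun _ => hx⟩).trans he.symm
        have h2 : (⟨s(x, y), h⟩ : G.edgeSet) = ⟨s(u, v), huv⟩ := Subtype.ext h1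
        rw [h2]
        show ((Equiv.swap i z i : Fin k) : ℕ) = 0
        rw [Equiv.swap_apply_left]
      · intro x y h hx hy
        exact absurd (hA2 x y h hx hy) id
    · refine recolour hch A k C id Function.injective_id ?_ ?_ L hL
      · intro x y h hx hy
        exact absurd ⟨x, y, h, hx, hy⟩ hin
      · intro x y h hx hy
        exact absurd (hA2 x y h hx hy) id
  · intro h
    obtain ⟨f, hf1, hf2⟩ := h (fun _ => Finset.range k) (fun _ => by rw [Finset.card_range])
    exact ⟨SimpleGraph.Coloring.mk (fun e => ⟨f e, Finset.mem_range.mp (hf1 e)⟩) (by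
      intro a b hab h
      exact hf2 a b hab (congrArg Fin.val h))⟩

end Pool.Agent.R671.LE.Cor
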